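import Pool.Agent.Helper35.PQF.St

/-! # Project PM, module HK: Harnack's inequality for symmetrised functions. -/

open Filter Topology Metric Set Asymptotics

namespace Pool.Agent.Helper37.PM

open Pool.Agent.Helper35.PM

/-- A function analytic at `0`, vanishing at `0` and invariant under a rotation of order `n`
vanishes to order `n` at `0`. -/
lemma hk_order {φ : ℂ → ℂ} {ω : ℂ} {m : ℕ} (hω : IsPrimitiveRoot ω (m + 1))
    (hφ : AnalyticAt ℂ φ 0) (h0 : φ 0 = 0) (hinv : ∀ z ∈ ball (0 : ℂ) 1, φ (ω * z) = φ z) :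
    φ =o[𝓝 0] (fun z : ℂ => ‖z‖ ^ m) := by
  by_cases hz : ∀ᶠ z in 𝓝 (0 : ℂ), φ z = 0
  · have : φ =ᶠ[𝓝 0] fun _ => (0 : ℂ) := hz
    exact this.trans_isLittleO (isLittleO_zero _ _)
  obtain ⟨k, g, hg, hg0, hgk⟩ := hφ.exists_eventuallyEq_pow_smul_nonzero_iff.2 hz
  simp only [sub_zero, smul_eq_mul] at hgk
  have hω0 : ω ≠ 0 := hω.ne_zero (by omega)
  -- `ω ^ k = 1`
  have hwk : ω ^ k = 1 := by
    have hgc : ContinuousAt g 0 := hg.continuousAt
    have htend : Tendsto (fun z : ℂ => ω * z) (𝓝 0) (𝓝 0) := by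
      have : Continuous fun z : ℂ => ω * z := by fun_prop
      simpa using this.tendsto 0
    have h1 : ∀ᶠ z in 𝓝[≠] (0 : ℂ), ω ^ k * g (ω * z) = g z := by
      have e1 : ∀ᶠ z in 𝓝[≠] (0 : ℂ), φ z = z ^ k * g z := hgk.filter_mono nhdsWithin_le_nhds
      have e2 : ∀ᶠ z in 𝓝[≠] (0 : ℂ), φ (ω * z) = (ω * z) ^ k * g (ω * z) :=
        (htend.eventually hgk).filter_mono nhdsWithin_le_nhds
      have e3 : ∀ᶠ z in 𝓝[≠] (0 : ℂ), z ∈ ball (0 : ℂ) 1 :=
        (ball_mem_nhds (0 : ℂ) one_pos : ball (0 : ℂ) 1 ∈ 𝓝 0) |>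
          fun h => mem_nhdsWithin_of_mem_nhds h
      filter_upwards [e1, e2, e3, self_mem_nhdsWithin] with z h1 h2 h3 h4
      have hz0 : z ≠ 0 := h4
      have := hinv z h3
      rw [h1, h2, mul_pow] at this
      have hzk : z ^ k ≠ 0 := pow_ne_zero _ hz0
      apply mul_left_cancel₀ hzk
      rw [← this]; ring
    have h2 : Tendsto (fun z : ℂ => ω ^ k * g (ω * z)) (𝓝[≠] 0) (𝓝 (ω ^ k * g 0)) := by
      have : Tendsto (fun z : ℂ => g (ω * z)) (𝓝 0) (𝓝 (g 0)) := hgc.tendsto.comp htend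
      exact (this.mono_left nhdsWithin_le_nhds).const_mul _
    have h3 : Tendsto g (𝓝[≠] 0) (𝓝 (g 0)) := hgc.tendsto.mono_left nhdsWithin_le_nhds
    have h4 : Tendsto g (𝓝[≠] 0) (𝓝 (ω ^ k * g 0)) := h2.congr' h1
    have h5 : ω ^ k * g 0 = g 0 := tendsto_nhds_unique h4 h3
    have h6 : ω ^ k * g 0 = 1 * g 0 := by rw [h5, one_mul]
    exact mul_right_cancel₀ hg0 h6
  have hk0 : k ≠ 0 := by
    rintro rfl
    have := hgk.self_of_nhds
    rw [h0] at this
    simp at this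
    exact hg0 this.symm
  have hmk : m + 1 ≤ k := Nat.le_of_dvd (Nat.pos_of_ne_zero hk0) (hω.dvd_of_pow_eq_one k hwk)
  have h7 : (fun z : ℂ => z ^ k * g z) =O[𝓝 0] (fun z : ℂ => z ^ k * (1 : ℂ)) :=
    (isBigO_refl _ _).mul (hg.continuousAt.isBigO_one ℂ)
  have h8 : (fun z : ℂ => z ^ k * (1 : ℂ)) =o[𝓝 0] (fun z : ℂ => z ^ m) := by
    simp only [mul_one]
    exact isLittleO_pow_pow (by omega)
  have h9 : (fun z : ℂ => z ^ k * g z) =o[𝓝 0] (fun z : ℂ => z ^ m) := h7.trans_isLittleO h8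
  have h10 : φ =o[𝓝 0] (fun z : ℂ => z ^ m) :=
    (show φ =ᶠ[𝓝 0] fun z => z ^ k * g z from hgk).trans_isLittleO h9
  have := h10.norm_right
  simpa only [norm_pow] using this

/-- Harnack's inequality for a function with strictly positive real part, real at `0`. -/
lemma hk_pos {F : ℂ → ℂ} {ω : ℂ} {m : ℕ} (hω : IsPrimitiveRoot ω (m + 1))
    (hF : DifferentiableOn ℂ F (ball 0 1)) (hpos : ∀ z ∈ ball (0 : ℂ) 1, 0 < (F z).re)
    (him : (F 0).im = 0) (hinv : ∀ z ∈ ball (0 : ℂ) 1, F (ω * z) = F z)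
    {z : ℂ} (hz : z ∈ ball (0 : ℂ) 1) :
    (F z).re ≤ (1 + ‖z‖ ^ (m + 1)) / (1 - ‖z‖ ^ (m + 1)) * (F 0).re := by
  have h0m : (0 : ℂ) ∈ ball (0 : ℂ) 1 := mem_ball_self one_pos
  set a : ℝ := (F 0).re with ha
  have ha0 : 0 < a := hpos 0 h0m
  have hFa : F 0 = (a : ℂ) := by
    apply Complex.ext
    · simp [ha]
    · simp [him]
  have hden : ∀ w ∈ ball (0 : ℂ) 1, F w + a ≠ 0 := by
    intro w hw h
    have := congrArg Complex.re h
    simp at this
    linarith [hpos w hw]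
  set φ : ℂ → ℂ := fun w => (F w - a) / (F w + a) with hφ
  have hφd : DifferentiableOn ℂ φ (ball 0 1) :=
    (hF.sub_const _).div (hF.add_const _) hden
  have hφ0 : φ 0 = 0 := by simp [hφ, hFa]
  have hφn : ∀ w ∈ ball (0 : ℂ) 1, ‖φ w‖ ≤ 1 := by
    intro w hw
    have hd := hden w hw
    simp only [hφ]
    rw [norm_div, div_le_one (norm_pos_iff.2 hd)]
    apply le_of_sq_le_sq _ (norm_nonneg _)
    rw [Complex.sq_norm, Complex.sq_norm, Complex.normSq_apply, Complex.normSq_apply]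
    simp
    nlinarith [mul_pos (hpos w hw) ha0]
  have hmaps : MapsTo φ (ball 0 1) (closedBall (φ 0) 1) := by
    intro w hw
    rw [hφ0, mem_closedBall_zero_iff]
    exact hφn w hw
  have hφinv : ∀ w ∈ ball (0 : ℂ) 1, φ (ω * w) = φ w := by
    intro w hw
    simp only [hφ]
    rw [hinv w hw]
  have han : AnalyticAt ℂ φ 0 := hφd.analyticAt (ball_mem_nhds _ one_pos)
  have hlo : (fun w => φ w - φ 0) =o[𝓝 0] (fun w : ℂ => ‖w - 0‖ ^ m) := by
    simpa [hφ0] using hk_order hω han hφ0 hφinv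
  have hs := Complex.dist_le_mul_div_pow_of_mapsTo_ball_of_isLittleO hφd hmaps hlo hz
  rw [hφ0, dist_zero_right, dist_zero_right, one_mul, div_one] at hs
  -- conclusion
  have hz1 : ‖z‖ < 1 := by simpa using hz
  have hr1 : ‖z‖ ^ (m + 1) < 1 := pow_lt_one₀ (norm_nonneg _) hz1 (by omega)
  set r : ℝ := ‖z‖ ^ (m + 1) with hr
  have hr0 : 0 ≤ r := by positivity
  have hd := hden z hz
  have key : F z * (1 - φ z) = a * (1 + φ z) := by
    simp only [hφ]
    field_simp
    ring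
  have h1 : ‖F z‖ * (1 - ‖φ z‖) ≤ a * (1 + ‖φ z‖) := by
    have e1 : ‖F z‖ * ‖1 - φ z‖ = a * ‖1 + φ z‖ := by
      rw [← norm_mul, key, norm_mul, Complex.norm_real, Real.norm_of_nonneg ha0.le]
    have e2 : 1 - ‖φ z‖ ≤ ‖1 - φ z‖ := by
      have := norm_sub_norm_le (1 : ℂ) (φ z)
      simpa using this
    have e3 : ‖1 + φ z‖ ≤ 1 + ‖φ z‖ := by
      have := norm_add_le (1 : ℂ) (φ z)
      simpa using this
    calc ‖F z‖ * (1 - ‖φ z‖) ≤ ‖F z‖ * ‖1 - φ z‖ := by gcongr
      _ = a * ‖1 + φ z‖ := e1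
      _ ≤ a * (1 + ‖φ z‖) := by gcongr
  have h2 : ‖F z‖ * (1 - r) ≤ a * (1 + r) := by
    calc ‖F z‖ * (1 - r) ≤ ‖F z‖ * (1 - ‖φ z‖) := by gcongr
      _ ≤ a * (1 + ‖φ z‖) := h1
      _ ≤ a * (1 + r) := by gcongr
  have h3 : (F z).re ≤ ‖F z‖ := Complex.re_le_norm _
  have h4 : 0 < 1 - r := by linarith
  rw [div_mul_eq_mul_div, le_div_iff₀ h4]
  calc (F z).re * (1 - r) ≤ ‖F z‖ * (1 - r) := by gcongr
    _ ≤ a * (1 + r) := h2
    _ = (1 + r) * a := by ring

/-- Harnack's inequality for a function with nonnegative real part. -/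
lemma hk_nonneg {F : ℂ → ℂ} {ω : ℂ} {m : ℕ} (hω : IsPrimitiveRoot ω (m + 1))
    (hF : DifferentiableOn ℂ F (ball 0 1)) (hpos : ∀ z ∈ ball (0 : ℂ) 1, 0 ≤ (F z).re)
    (hinv : ∀ z ∈ ball (0 : ℂ) 1, F (ω * z) = F z)
    {z : ℂ} (hz : z ∈ ball (0 : ℂ) 1) :
    (F z).re ≤ (1 + ‖z‖ ^ (m + 1)) / (1 - ‖z‖ ^ (m + 1)) * (F 0).re := by
  have hz1 : ‖z‖ < 1 := by simpa using hz
  have hr1 : ‖z‖ ^ (m + 1) < 1 := pow_lt_one₀ (norm_nonneg _) hz1 (by omega)
  set C : ℝ := (1 + ‖z‖ ^ (m + 1)) / (1 - ‖z‖ ^ (m + 1)) with hC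
  have hC0 : 0 ≤ C := by
    rw [hC]
    apply div_nonneg
    · positivity
    · linarith
  have key : ∀ e : ℝ, 0 < e → (F z).re + e ≤ C * ((F 0).re + e) := by
    intro e he
    have := hk_pos (F := fun w => F w + ((e : ℂ) - (F 0).im * Complex.I)) hω
      (hF.add_const _)
      (by
        intro w hw
        simp
        linarith [hpos w hw])
      (by simp)
      (by
        intro w hw
        show F (ω * w) + _ = F w + _
        rw [hinv w hw]) hz
    simpa using this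
  have hlim1 : Tendsto (fun e : ℝ => (F z).re + e) (𝓝[>] 0) (𝓝 ((F z).re + 0)) := by
    apply Tendsto.mono_left _ nhdsWithin_le_nhds
    exact (continuous_const.add continuous_id).tendsto 0
  have hlim2 : Tendsto (fun e : ℝ => C * ((F 0).re + e)) (𝓝[>] 0) (𝓝 (C * ((F 0).re + 0))) := by
    apply Tendsto.mono_left _ nhdsWithin_le_nhds
    exact (continuous_const.mul (continuous_const.add continuous_id)).tendsto 0
  have := le_of_tendsto_of_tendsto hlim1 hlim2
    (by filter_upwards [self_mem_nhdsWithin] with e he using key e he)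
  simpa using this

/-- Module HK. -/
theorem hk : St_HK := by
  intro G hG hpos z hz
  have hball : ∀ c : ℂ, ‖c‖ = 1 → MapsTo (fun w : ℂ => c * w) (ball 0 1) (ball 0 1) := by
    intro c hc w hw
    simpa [hc] using hw
  have hdiff : ∀ c : ℂ, ‖c‖ = 1 → DifferentiableOn ℂ (fun w : ℂ => G (c * w)) (ball 0 1) := by
    intro c hc
    exact hG.comp (by fun_prop) (hball c hc)
  have hn : ‖(-1 : ℂ)‖ = 1 := by simp
  have hI : ‖Complex.I‖ = 1 := by simp
  have hnI : ‖-Complex.I‖ = 1 := by simp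
  refine ⟨?_, ?_, ?_⟩
  · have := hk_nonneg (F := G) (ω := 1) (m := 0) (by simp) hG hpos
      (by intro w _; rw [one_mul]) hz
    simpa using this
  · have hω : IsPrimitiveRoot (-1 : ℂ) (1 + 1) := IsPrimitiveRoot.neg_one 0 (by norm_num)
    have := hk_nonneg (F := fun w => G w + G (-1 * w)) (ω := -1) (m := 1) hω
      (hG.add (hdiff _ hn))
      (by
        intro w hw
        have h1 := hpos w hw
        have h2 := hpos _ (hball _ hn hw)
        simp only [Complex.add_re] at *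
        linarith)
      (by
        intro w _
        have e : (-1 : ℂ) * (-1 * w) = w := by ring
        simp only [e]
        ring) hz
    simp only [Complex.add_re, mul_zero, neg_mul, one_mul] at this
    have e : (1 + ‖z‖ ^ (1 + 1)) / (1 - ‖z‖ ^ (1 + 1)) * ((G 0).re + (G 0).re) =
        2 * ((1 + ‖z‖ ^ 2) / (1 - ‖z‖ ^ 2)) * (G 0).re := by ring
    linarith
  · have hω : IsPrimitiveRoot Complex.I (3 + 1) := by
      refine IsPrimitiveRoot.mk_of_lt _ (by norm_num) (by simp [Complex.I_pow_four]) ?_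
      intro l hl0 hl4
      interval_cases l
      · simp [Complex.ext_iff]
      · rw [Complex.I_sq]; norm_num
      · rw [Complex.I_pow_three]; simp [Complex.ext_iff]
    have := hk_nonneg
      (F := fun w => G w + G (-1 * w) + G (Complex.I * w) + G (-Complex.I * w))
      (ω := Complex.I) (m := 3) hω
      (((hG.add (hdiff _ hn)).add (hdiff _ hI)).add (hdiff _ hnI))
      (by
        intro w hw
        have h1 := hpos w hw
        have h2 := hpos _ (hball _ hn hw)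
        have h3 := hpos _ (hball _ hI hw)
        have h4 := hpos _ (hball _ hnI hw)
        simp only [Complex.add_re] at *
        linarith)
      (by
        intro w _
        have e1 : (-1 : ℂ) * (Complex.I * w) = -Complex.I * w := by ring
        have e2 : Complex.I * (Complex.I * w) = -1 * w := by
          rw [← mul_assoc, Complex.I_mul_I]
        have e3 : -Complex.I * (Complex.I * w) = w := by
          rw [← mul_assoc, neg_mul, Complex.I_mul_I]; ring
        simp only [e1, e2, e3]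
        ring) hz
    simp only [Complex.add_re, mul_zero, neg_mul, one_mul] at this
    have e : (1 + ‖z‖ ^ (3 + 1)) / (1 - ‖z‖ ^ (3 + 1)) *
        ((G 0).re + (G 0).re + (G 0).re + (G 0).re) =
        4 * ((1 + ‖z‖ ^ 4) / (1 - ‖z‖ ^ 4)) * (G 0).re := by ring
    linarith

end Pool.Agent.Helper37.PM
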